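import Pool.Agent.H57.SL.Ast
import Pool.Agent.H1.GS.Icg

/-!
# H1-SQ-AST: H57/SL/Ast and asm1 for fields of any signature (SQ, chapter LSa; MP_b39724_nt)

`asm1g`, `ast1g`, `ast2g`: as `H57.LC.asm1`, `H57.SL.ast1`, `H57.SL.ast2`, with `H1.GS.icg`.
-/

set_option autoImplicit false

open scoped NumberField nonZeroDivisors Classical
open IsDedekindDomain H63.MA NumberField H1.LS4 H36.QA H57.LI H57.LC H57.SL

noncomputable section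

namespace H1.SQ

/-- one character -/
theorem asm1g (K : Type) [Field K] [NumberField K] (n : ℕ) : ∃ (C : ℝ) (A : ℕ) (δ : ℝ), 1 ≤ C ∧ 0 < δ ∧
    δ ≤ 1 / 4 ∧ ∀ (E : Type) [Field E] [NumberField E] [Algebra K E], Module.finrank ℚ E = n → ∀ 𝔣 : Ideal (𝓞 E), 𝔣 ≠ ⊥ →
      ∀ ψ : RC E 𝔣, ψ.Non → ∀ g : Pl K → ℝ, (∀ l, |g l| ≤ 9) → ∀ Bd : Finset (Pl K),
      (∀ l, l ∉ Bd → ∑ᶠ w ∈ {w : Pl E | Over w l ∧ nm w = nm l}, ψ.χ w.asIdeal = (g l : ℂ)) → ∀ Y : ℝ, 1 ≤ Y →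
      |∑ s ∈ (prK K).SF Y, pd g s| ≤ C * C ^ Bd.card * (dd E * Ideal.absNorm 𝔣) ^ A * Y ^ (1 - δ) := by
  obtain ⟨C₁, A, δ, hC₁, hδ, hδ1, h1⟩ := H1.GS.icg n
  obtain ⟨C₂, c, hC₂, hc, h2⟩ := H57.LC.cmp (prK K) n
  refine ⟨max (C₁ * C₂) c, A, δ, le_trans hc (le_max_right _ _), hδ, hδ1, ?_⟩
  intro E _ _ _ hE 𝔣 h𝔣 ψ hψ g hg Bd hBd Y hY
  have hdd : 1 ≤ dd E := one_le_dd E
  have hN : (1 : ℝ) ≤ Ideal.absNorm 𝔣 := by
    have h : Ideal.absNorm 𝔣 ≠ 0 := fun h => h𝔣 (Ideal.absNorm_eq_zero_iff.1 h)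
    exact_mod_cast Nat.one_le_iff_ne_zero.2 h
  have h3 := h2 (Ideal (𝓞 E))⁰ (Pl E) (idG E) (rch ψ) (rch_norm ψ) (bel K) (rdg K) (fun q => (rdg_spec q).1)
    (fun q => by rw [prK_N, idG_Npr]; exact (rdg_spec q).2) (fun l => by
      have h := bel_card (K := K) (E := E) l
      rw [hE] at h
      exact h) g hg Bd (fun l hl => by
      rw [bel_set]
      exact hBd l hl) (C₁ * (dd E * Ideal.absNorm 𝔣) ^ A) δ hδ hδ1 (fun M hM => by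
      rw [idG_W ψ M (by linarith)]
      exact h1 E hE 𝔣 h𝔣 ψ hψ M hM) Y hY
  refine h3.trans ?_
  have h5 : 0 ≤ (dd E * Ideal.absNorm 𝔣) ^ A := by positivity
  have h6 : 0 ≤ Y ^ (1 - δ) := Real.rpow_nonneg (by linarith) _
  have h7 : C₁ * C₂ * c ^ Bd.card ≤ max (C₁ * C₂) c * max (C₁ * C₂) c ^ Bd.card :=
    mul_le_mul (le_max_left _ _) (pow_le_pow_left₀ (by linarith) (le_max_right _ _) _) (by positivity)
      (le_trans (by linarith) (le_max_right _ _))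
  calc C₂ * c ^ Bd.card * (C₁ * (dd E * Ideal.absNorm 𝔣) ^ A) * Y ^ (1 - δ)
      = (C₁ * C₂ * c ^ Bd.card) * (dd E * Ideal.absNorm 𝔣) ^ A * Y ^ (1 - δ) := by ring
    _ ≤ _ := mul_le_mul_of_nonneg_right (mul_le_mul_of_nonneg_right h7 h5) h6

theorem ast1g (K : Type) [Field K] [NumberField K] (n : ℕ) (hn : 0 < n) :
    ∃ (C : ℝ) (A : ℕ) (δ : ℝ), 1 ≤ C ∧ 0 < δ ∧ δ ≤ 1 / 4 ∧
      ∀ (E : Type) [Field E] [NumberField E] [Algebra K E], Module.finrank ℚ E = n →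
      ∀ 𝔣 : Ideal (𝓞 E), 𝔣 ≠ ⊥ → ∀ ψ : RC E 𝔣, ψ.Non →
      ∀ g : Pl K → ℝ, (∀ l, |g l| ≤ 9) → ∀ Bd : Finset (Pl K),
      (∀ l, l ∉ Bd → (nm l).Prime → d1 K ψ.χ l = (g l : ℂ)) → ∀ Y : ℝ, 1 ≤ Y →
      |∑ s ∈ (prK K).SF Y, pd g s| ≤
        C * C ^ Bd.card * (dd E * Ideal.absNorm 𝔣) ^ A * Y ^ (1 - δ) := by
  obtain ⟨C₁, A, δ, hC₁, hδ, hδ1, h1⟩ := H1.GS.icg n
  obtain ⟨C₂, c, hC₂, hc, h2⟩ := cmt (prK K) n {l | ¬ (nm l).Prime} (thn K)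
  refine ⟨max (C₁ * C₂) c, A, δ, le_trans hc (le_max_right _ _), hδ, hδ1, ?_⟩
  intro E _ _ _ hE 𝔣 h𝔣 ψ hψ g hg Bd hBd Y hY
  have hdd : 1 ≤ dd E := one_le_dd E
  have hN : (1 : ℝ) ≤ Ideal.absNorm 𝔣 := by
    have h : Ideal.absNorm 𝔣 ≠ 0 := fun h => h𝔣 (Ideal.absNorm_eq_zero_iff.1 h)
    exact_mod_cast Nat.one_le_iff_ne_zero.2 h
  have h3 := h2 (Ideal (𝓞 E))⁰ (Pl E) (idG E) (rch ψ) (rch_norm ψ) (bel K) (rdg K) (fun q => (rdg_spec q).1)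
    (fun q => by rw [prK_N, idG_Npr]; exact (rdg_spec q).2) (fun l => by
      have h := bel_card (K := K) (E := E) l
      rw [hE] at h
      exact h) g hg Bd (fun l hl hp => by
      rw [bel_set]
      exact hBd l hl (not_not.1 hp)) (C₁ * (dd E * Ideal.absNorm 𝔣) ^ A) δ hδ hδ1 (fun M hM => by
      rw [idG_W ψ M (by linarith)]
      exact h1 E hE 𝔣 h𝔣 ψ hψ M hM) Y hY
  refine h3.trans ?_
  have h5 : 0 ≤ (dd E * Ideal.absNorm 𝔣) ^ A := by positivity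
  have h6 : 0 ≤ Y ^ (1 - δ) := Real.rpow_nonneg (by linarith) _
  have h7 : C₁ * C₂ * c ^ Bd.card ≤ max (C₁ * C₂) c * max (C₁ * C₂) c ^ Bd.card :=
    mul_le_mul (le_max_left _ _) (pow_le_pow_left₀ (by linarith) (le_max_right _ _) _) (by positivity)
      (le_trans (by linarith) (le_max_right _ _))
  calc C₂ * c ^ Bd.card * (C₁ * (dd E * Ideal.absNorm 𝔣) ^ A) * Y ^ (1 - δ)
      = (C₁ * C₂ * c ^ Bd.card) * (dd E * Ideal.absNorm 𝔣) ^ A * Y ^ (1 - δ) := by ring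
    _ ≤ _ := mul_le_mul_of_nonneg_right (mul_le_mul_of_nonneg_right h7 h5) h6

theorem ast2g (K : Type) [Field K] [NumberField K] (n1 n2 : ℕ) (hn1 : 0 < n1) (hn2 : 0 < n2) :
    ∃ (C : ℝ) (A : ℕ) (δ : ℝ), 1 ≤ C ∧ 0 < δ ∧ δ ≤ 1 / 4 ∧
      ∀ (E1 E2 : Type) [Field E1] [NumberField E1] [Algebra K E1] [Field E2] [NumberField E2]
      [Algebra K E2], Module.finrank ℚ E1 = n1 → Module.finrank ℚ E2 = n2 →
      ∀ (𝔣1 : Ideal (𝓞 E1)) (𝔣2 : Ideal (𝓞 E2)), 𝔣1 ≠ ⊥ → 𝔣2 ≠ ⊥ →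
      ∀ (ψ1 : RC E1 𝔣1) (ψ2 : RC E2 𝔣2), ψ1.Non → ψ2.Non →
      ∀ g : Pl K → ℝ, (∀ l, |g l| ≤ 9) → ∀ Bd : Finset (Pl K),
      (∀ l, l ∉ Bd → (nm l).Prime → d1 K ψ1.χ l + d1 K ψ2.χ l = (g l : ℂ)) →
      ∀ Y : ℝ, 1 ≤ Y → |∑ s ∈ (prK K).SF Y, pd g s| ≤
        C * C ^ Bd.card * (dd E1 * Ideal.absNorm 𝔣1 * (dd E2 * Ideal.absNorm 𝔣2)) ^ A *
          Y ^ (1 - δ) := by
  obtain ⟨C₁, A₁, δ₁, hC₁, hδ₁, hδ₁', h1⟩ := H1.GS.icg n1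
  obtain ⟨C₂, A₂, δ₂, hC₂, hδ₂, hδ₂', h2⟩ := H1.GS.icg n2
  obtain ⟨δ, hδd⟩ : ∃ δ : ℝ, δ = min δ₁ δ₂ := ⟨_, rfl⟩
  have hδ : 0 < δ := by rw [hδd]; exact lt_min hδ₁ hδ₂
  have hδa : δ ≤ δ₁ := by rw [hδd]; exact min_le_left _ _
  have hδb : δ ≤ δ₂ := by rw [hδd]; exact min_le_right _ _
  have hδ1 : δ ≤ 1 / 4 := hδa.trans hδ₁'
  obtain ⟨C₃, c, hC₃, hc, h3⟩ := cmt (prK K) (n1 + n2) {l | ¬ (nm l).Prime} (thn K)
  obtain ⟨C₄, hC₄, h4⟩ := hyp2 δ hδ hδ1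
  obtain ⟨F₁, hF₁, g1⟩ := idG_cnt n1 hn1 (δ / 2) (by linarith)
  obtain ⟨F₂, hF₂, g2⟩ := idG_cnt n2 hn2 (δ / 2) (by linarith)
  refine ⟨max (C₃ * C₄ * (F₁ * F₂) * (C₁ * C₂) ^ 2) c, (A₁ + A₂) * 2, δ / 4, le_trans hc (le_max_right _ _),
    by linarith, by linarith, ?_⟩
  intro E1 E2 _ _ _ _ _ _ hE1 hE2 𝔣1 𝔣2 h𝔣1 h𝔣2 ψ1 ψ2 hψ1 hψ2 g hg Bd hBd Y hY
  have hN1 : (1 : ℝ) ≤ Ideal.absNorm 𝔣1 := by
    have h : Ideal.absNorm 𝔣1 ≠ 0 := fun h => h𝔣1 (Ideal.absNorm_eq_zero_iff.1 h)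
    exact_mod_cast Nat.one_le_iff_ne_zero.2 h
  have hN2 : (1 : ℝ) ≤ Ideal.absNorm 𝔣2 := by
    have h : Ideal.absNorm 𝔣2 ≠ 0 := fun h => h𝔣2 (Ideal.absNorm_eq_zero_iff.1 h)
    exact_mod_cast Nat.one_le_iff_ne_zero.2 h
  obtain ⟨a1, ha1⟩ : ∃ a1 : ℝ, a1 = dd E1 * Ideal.absNorm 𝔣1 := ⟨_, rfl⟩
  obtain ⟨a2, ha2⟩ : ∃ a2 : ℝ, a2 = dd E2 * Ideal.absNorm 𝔣2 := ⟨_, rfl⟩
  have ha1' : 1 ≤ a1 := by rw [ha1]; exact one_le_mul_of_one_le_of_one_le (one_le_dd E1) hN1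
  have ha2' : 1 ≤ a2 := by rw [ha2]; exact one_le_mul_of_one_le_of_one_le (one_le_dd E2) hN2
  have ha12 : 1 ≤ a1 * a2 := one_le_mul_of_one_le_of_one_le ha1' ha2'
  obtain ⟨D, hD⟩ : ∃ D : ℝ, D = C₁ * C₂ * (a1 * a2) ^ (A₁ + A₂) := ⟨_, rfl⟩
  have hCC : 1 ≤ C₁ * C₂ := one_le_mul_of_one_le_of_one_le hC₁ hC₂
  have hD1 : 1 ≤ D := by
    rw [hD]
    exact one_le_mul_of_one_le_of_one_le hCC (one_le_pow₀ ha12)
  have hDa : C₁ * a1 ^ A₁ ≤ D := by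
    rw [hD]
    refine mul_le_mul (le_mul_of_one_le_right (by linarith) hC₂) ?_ (by positivity) (by linarith)
    calc a1 ^ A₁ ≤ (a1 * a2) ^ A₁ := pow_le_pow_left₀ (by linarith) (le_mul_of_one_le_right (by linarith) ha2') _
      _ ≤ (a1 * a2) ^ (A₁ + A₂) := pow_le_pow_right₀ ha12 (by omega)
  have hDb : C₂ * a2 ^ A₂ ≤ D := by
    rw [hD]
    refine mul_le_mul (le_mul_of_one_le_left (by linarith) hC₁) ?_ (by positivity) (by linarith)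
    calc a2 ^ A₂ ≤ (a1 * a2) ^ A₂ := pow_le_pow_left₀ (by linarith) (le_mul_of_one_le_left (by linarith) ha1') _
      _ ≤ (a1 * a2) ^ (A₁ + A₂) := pow_le_pow_right₀ ha12 (by omega)
  have hW1 : ∀ M : ℝ, 1 ≤ M → ‖(idG E1).W (rch ψ1) M‖ ≤ D * M ^ (1 - δ) := by
    intro M hM
    rw [idG_W ψ1 M (by linarith)]
    refine (h1 E1 hE1 𝔣1 h𝔣1 ψ1 hψ1 M hM).trans ?_
    rw [← ha1]
    exact mul_le_mul hDa (Real.rpow_le_rpow_of_exponent_le hM (by linarith)) (Real.rpow_nonneg (by linarith) _)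
      (by linarith)
  have hW2 : ∀ M : ℝ, 1 ≤ M → ‖(idG E2).W (rch ψ2) M‖ ≤ D * M ^ (1 - δ) := by
    intro M hM
    rw [idG_W ψ2 M (by linarith)]
    refine (h2 E2 hE2 𝔣2 h𝔣2 ψ2 hψ2 M hM).trans ?_
    rw [← ha2]
    exact mul_le_mul hDb (Real.rpow_le_rpow_of_exponent_le hM (by linarith)) (Real.rpow_nonneg (by linarith) _)
      (by linarith)
  have hF : 1 ≤ F₁ * F₂ := one_le_mul_of_one_le_of_one_le hF₁ hF₂
  have hG1 : (idG E1).Cnt (F₁ * F₂) (δ / 2) := by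
    intro m hm
    exact (g1 E1 hE1 m hm).trans (mul_le_mul_of_nonneg_right (le_mul_of_one_le_right (by linarith) hF₂)
      (Real.rpow_nonneg (Nat.cast_nonneg _) _))
  have hG2 : (idG E2).Cnt (F₁ * F₂) (δ / 2) := by
    intro m hm
    exact (g2 E2 hE2 m hm).trans (mul_le_mul_of_nonneg_right (le_mul_of_one_le_left (by linarith) hF₁)
      (Real.rpow_nonneg (Nat.cast_nonneg _) _))
  have h5 := h4 (Ideal (𝓞 E1))⁰ (Pl E1) (Ideal (𝓞 E2))⁰ (Pl E2) (idG E1) (idG E2) (rch ψ1) (rch ψ2) (F₁ * F₂) D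
    hF hD1 (rch_norm ψ1) (rch_norm ψ2) hG1 hG2 hW1 hW2
  obtain ⟨u, hu⟩ : ∃ u : Pl E1 ⊕ Pl E2 → Pl K, u = Sum.elim (bel K) (bel K) := ⟨_, rfl⟩
  obtain ⟨f, hf⟩ : ∃ f : Pl E1 ⊕ Pl E2 → ℕ, f = Sum.elim (rdg K) (rdg K) := ⟨_, rfl⟩
  have hset : ∀ (P1 : Pl E1 → Prop) (P2 : Pl E2 → Prop) (Q : Pl E1 ⊕ Pl E2 → Prop), (∀ w, Q (Sum.inl w) ↔ P1 w) →
      (∀ w, Q (Sum.inr w) ↔ P2 w) → {q | Q q} = (Sum.inl '' {w | P1 w}) ∪ (Sum.inr '' {w | P2 w}) := by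
    intro P1 P2 Q h1 h2
    ext q
    rcases q with w | w <;> simp [h1, h2]
  have h6 := h3 ((Ideal (𝓞 E1))⁰ × (Ideal (𝓞 E2))⁰) (Pl E1 ⊕ Pl E2) ((idG E1).prod (idG E2))
    (pch (rch ψ1) (rch ψ2)) ?_ u f ?_ ?_ ?_ g hg Bd ?_ (C₄ * (F₁ * F₂ * D ^ 2)) (δ / 4) (by linarith) (by linarith)
    h5 Y hY
  · refine h6.trans ?_
    have h7 : 0 ≤ Y ^ (1 - δ / 4) := Real.rpow_nonneg (by linarith) _
    have h8 : C₃ * c ^ Bd.card * (C₄ * (F₁ * F₂ * D ^ 2)) =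
        (C₃ * C₄ * (F₁ * F₂) * (C₁ * C₂) ^ 2) * c ^ Bd.card * (a1 * a2) ^ ((A₁ + A₂) * 2) := by
      rw [hD, pow_mul]
      ring
    rw [h8, ← ha1, ← ha2]
    have h9 : (C₃ * C₄ * (F₁ * F₂) * (C₁ * C₂) ^ 2) * c ^ Bd.card ≤
        max (C₃ * C₄ * (F₁ * F₂) * (C₁ * C₂) ^ 2) c * max (C₃ * C₄ * (F₁ * F₂) * (C₁ * C₂) ^ 2) c ^ Bd.card :=
      mul_le_mul (le_max_left _ _) (pow_le_pow_left₀ (by linarith) (le_max_right _ _) _) (by positivity)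
        (le_trans (by linarith) (le_max_right _ _))
    exact mul_le_mul_of_nonneg_right (mul_le_mul_of_nonneg_right h9 (by positivity)) h7
  · rintro ⟨I, J⟩
    rw [pch_apply, norm_mul]
    exact mul_le_one₀ (rch_norm ψ1 I) (norm_nonneg _) (rch_norm ψ2 J)
  · rw [hf]
    rintro (w | w) <;> exact (rdg_spec w).1
  · rw [hu, hf]
    rintro (w | w)
    · have h : ((idG E1).prod (idG E2)).N (((idG E1).prod (idG E2)).pr (Sum.inl w)) =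
          (idG E1).N ((idG E1).pr w) * (idG E2).N 1 := rfl
      rw [h, map_one, mul_one, prK_N, idG_Npr]
      exact (rdg_spec w).2
    · have h : ((idG E1).prod (idG E2)).N (((idG E1).prod (idG E2)).pr (Sum.inr w)) =
          (idG E1).N 1 * (idG E2).N ((idG E2).pr w) := rfl
      rw [h, map_one, one_mul, prK_N, idG_Npr]
      exact (rdg_spec w).2
  · intro l
    have hb1 := bel_card (K := K) (E := E1) l
    rw [hE1] at hb1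
    have hb2 := bel_card (K := K) (E := E2) l
    rw [hE2] at hb2
    rw [hset (fun w => bel K w = l) (fun w => bel K w = l) (fun q => u q = l) (fun _ => by rw [hu]; exact Iff.rfl)
      (fun _ => by rw [hu]; exact Iff.rfl)]
    refine ⟨(hb1.1.image _).union (hb2.1.image _), (Set.ncard_union_le _ _).trans ?_⟩
    have e1 := Set.ncard_image_le (f := (Sum.inl : Pl E1 → Pl E1 ⊕ Pl E2)) hb1.1
    have e2 := Set.ncard_image_le (f := (Sum.inr : Pl E2 → Pl E1 ⊕ Pl E2)) hb2.1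
    omega
  · intro l hl hp
    have hSf1 : {w : Pl E1 | Over w l ∧ nm w = nm l}.Finite := by
      rw [← bel_set]
      exact (bel_card (K := K) (E := E1) l).1.subset fun w hw => hw.1
    have hSf2 : {w : Pl E2 | Over w l ∧ nm w = nm l}.Finite := by
      rw [← bel_set]
      exact (bel_card (K := K) (E := E2) l).1.subset fun w hw => hw.1
    rw [hset (fun w => Over w l ∧ nm w = nm l) (fun w => Over w l ∧ nm w = nm l) (fun q => u q = l ∧ f q = 1)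
      (fun w => by rw [hu, hf]; exact Set.ext_iff.1 (bel_set (K := K) (E := E1) l) w)
      (fun w => by rw [hu, hf]; exact Set.ext_iff.1 (bel_set (K := K) (E := E2) l) w), ← hBd l hl (not_not.1 hp)]
    have hd1 : Disjoint (Sum.inl '' {w : Pl E1 | Over w l ∧ nm w = nm l} : Set (Pl E1 ⊕ Pl E2))
        (Sum.inr '' {w : Pl E2 | Over w l ∧ nm w = nm l}) := by
      rw [Set.disjoint_left]
      rintro q ⟨_, _, rfl⟩ ⟨_, _, h⟩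
      simp at h
    rw [finsum_mem_union hd1 (hSf1.image _) (hSf2.image _), finsum_mem_image Sum.inl_injective.injOn,
      finsum_mem_image Sum.inr_injective.injOn]
    unfold d1
    congr 1
    · refine finsum_mem_congr rfl fun w _ => ?_
      show rch ψ1 ((idG E1).pr w) * rch ψ2 1 = _
      rw [map_one, mul_one]
      rfl
    · refine finsum_mem_congr rfl fun w _ => ?_
      show rch ψ1 1 * rch ψ2 ((idG E2).pr w) = _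
      rw [map_one, one_mul]
      rfl

end H1.SQ
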