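import Pool.Agent.H1.SL.Cr9
import Pool.Agent.H1.SQ.Ast
import Pool.Agent.H1.GS.Cpd
import Pool.Agent.H1.GS.Li1

/-!
# H1-SQ-CR9: `cr9g`, as H1/SL/Cr9, any number field
-/

set_option autoImplicit false

open scoped NumberField Pointwise Classical
open IsDedekindDomain H63.MA NumberField H36.QA H57.LI H57.SL H1.LS4 H67.SX H38.ML H1.SL

noncomputable section

namespace H1.SQ

theorem cr9g (K : IntermediateField ℚ QBar) [NumberField K]
    (S : Finset (Pl K)) (h2 : ∀ v : Pl K, Above 2 v → v ∈ S) :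
    ∃ (C : ℝ) (A : ℕ) (δ : ℝ), 1 ≤ C ∧ 0 < δ ∧ δ ≤ 1 / 4 ∧
      ∀ x y : AQ K S, IsEmpty (x.c.F ≃ₐ[K] y.c.F) → ∀ Y : ℝ, 1 ≤ Y →
        |∑ s ∈ (prK K).SF Y, pd (fun l => off S x.lp l * off S y.lp l) s| ≤
          C * (x.c.D * y.c.D) ^ A * Y ^ (1 - δ) := by
  obtain ⟨C, A, δ, hC, hδ, hδ4, hasm⟩ := asm1g K (Module.finrank ℚ K * 9)
  obtain ⟨a, ha⟩ := pow_unbounded_of_one_lt C (one_lt_two : (1 : ℝ) < 2)
  obtain ⟨C₁, hC₁, hddt⟩ := ddt K
  obtain ⟨C₂, hC₂, A₂, hcpd⟩ := H1.GS.cpd (Module.finrank ℚ K * 3) (Module.finrank ℚ K * 3)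
  obtain ⟨N, hN⟩ : ∃ N : ℝ, N = (Ideal.absNorm (H48.T3.mS S) : ℝ) := ⟨_, rfl⟩
  have hN1 : 1 ≤ N := by
    rw [hN]
    exact_mod_cast (md_abs K S K (Module.finrank_self K)).2
  have hC0 : 0 ≤ C := by linarith
  refine ⟨C * C ^ S.card * ((C₂ * (C₁ * C₁) ^ A₂) ^ (a + A) * (N ^ 9) ^ A), A₂ * (a + A), δ, ?_, hδ,
    hδ4, fun x y hne Y hY => ?_⟩
  · refine one_le_mul_of_one_le_of_one_le (one_le_mul_of_one_le_of_one_le hC (one_le_pow₀ hC))
      (one_le_mul_of_one_le_of_one_le (one_le_pow₀ (one_le_mul_of_one_le_of_one_le hC₂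
        (one_le_pow₀ (one_le_mul_of_one_le_of_one_le hC₁ hC₁)))) (one_le_pow₀ (one_le_pow₀ hN1)))
  obtain ⟨E, i1, i2, i3, i4, i5, i6, i7, h9, h⟩ := cm9 QBar x.c.deg y.c.deg hne
  obtain ⟨ψ₁, hψ₁⟩ := rcn (K := K) (E := E) x.χ
  obtain ⟨ψ₂, hψ₂⟩ := rcn (K := K) (E := E) y.χ
  obtain ⟨ψ, hψ⟩ := rcml ψ₁ ψ₂
  have hψ' : ∀ I : Ideal (𝓞 E), ψ.χ I =
      x.χ.χ (Ideal.relNorm (𝓞 x.c.F) I) * y.χ.χ (Ideal.relNorm (𝓞 y.c.F) I) := by
    intro I
    rw [hψ, hψ₁, hψ₂]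
  have hnon : ψ.Non := non9 h x.c.deg h9 x.χ y.χ ⟨x.quad, x.triv⟩ ⟨y.quad, y.triv⟩ x.non ψ hψ'
  obtain ⟨B, hB1, hB⟩ := bad K E
  have hD1 := one_le_D x.c
  have hD2 := one_le_D y.c
  have hD1' : 0 ≤ x.c.D := by linarith
  have hD2' : 0 ≤ y.c.D := by linarith
  have hdd1 := one_le_dd x.c.F
  have hdd2 := one_le_dd y.c.F
  have hddE := one_le_dd E
  have hddE0 : 0 ≤ dd E := by linarith
  have hg : ∀ l, |off S x.lp l * off S y.lp l| ≤ 9 := by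
    intro l
    rw [abs_mul]
    have h1 := off_le x l
    have h2 := off_le y l
    have h3 := abs_nonneg (off S x.lp l)
    have h4 := abs_nonneg (off S y.lp l)
    nlinarith
  have h1 := hasm E (H1.GS.fr_up rfl h9) (md (H48.T3.mS S) E) (md_n0 K S E) ψ hnon
    (fun l => off S x.lp l * off S y.lp l) hg (S ∪ B) (by
      intro l hl
      rw [Finset.mem_union, not_or] at hl
      have h3 : off S x.lp l = x.lp l := if_neg hl.1
      have h4 : off S y.lp l = y.lp l := if_neg hl.1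
      have hIT : IT QBar E l := (inr_iff E l).2 (hB l hl.2)
      have hu1 := (inr_iff x.c.F l).1 (it_down x.c.F hIT)
      have hu2 := (inr_iff y.c.F l).1 (it_down y.c.F hIT)
      rw [h3, h4, Complex.ofReal_mul, cbl_lp h2 x l hl.1 hu1, cbl_lp h2 y l hl.1 hu2]
      exact (loc9 h l hIT x.χ.χ y.χ.χ ψ.χ hψ').symm) Y hY
  refine h1.trans (mul_le_mul_of_nonneg_right ?_ (Real.rpow_nonneg (by linarith) _))
  have hE : dd E ≤ C₂ * (C₁ * C₁) ^ A₂ * (x.c.D * y.c.D) ^ A₂ := by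
    have h3 : dd E ≤ C₂ * (dd x.c.F * dd y.c.F) ^ A₂ :=
      hcpd x.c.F y.c.F E (H1.GS.fr_up rfl x.c.deg) (H1.GS.fr_up rfl y.c.deg) h.gen
    refine h3.trans ?_
    rw [mul_assoc, ← mul_pow]
    refine mul_le_mul_of_nonneg_left (pow_le_pow_left₀ (by positivity) ?_ _) (by linarith)
    calc dd x.c.F * dd y.c.F ≤ (C₁ * x.c.D) * (C₁ * y.c.D) :=
          mul_le_mul (hddt x.c) (hddt y.c) (by linarith) (by positivity)
      _ = C₁ * C₁ * (x.c.D * y.c.D) := by ring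
  have h4 : C ^ (S ∪ B).card ≤ C ^ S.card * dd E ^ a := by
    calc C ^ (S ∪ B).card ≤ C ^ (S.card + B.card) :=
          pow_le_pow_right₀ hC (Finset.card_union_le _ _)
      _ = C ^ S.card * C ^ B.card := pow_add _ _ _
      _ ≤ C ^ S.card * dd E ^ a := by
          refine mul_le_mul_of_nonneg_left ?_ (pow_nonneg hC0 _)
          calc C ^ B.card ≤ ((2 : ℝ) ^ a) ^ B.card := pow_le_pow_left₀ hC0 ha.le _
            _ = ((2 : ℝ) ^ B.card) ^ a := by rw [← pow_mul, ← pow_mul, mul_comm]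
            _ ≤ dd E ^ a := pow_le_pow_left₀ (by positivity) hB1 _
  have h5 : (dd E * (Ideal.absNorm (md (H48.T3.mS S) E) : ℝ)) ^ A = dd E ^ A * (N ^ 9) ^ A := by
    rw [(md_abs K S E h9).1, hN, mul_pow]
    push_cast
    ring
  rw [h5]
  calc C * C ^ (S ∪ B).card * (dd E ^ A * (N ^ 9) ^ A)
      ≤ C * (C ^ S.card * dd E ^ a) * (dd E ^ A * (N ^ 9) ^ A) := by
        refine mul_le_mul_of_nonneg_right (mul_le_mul_of_nonneg_left h4 hC0) (by positivity)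
    _ = C * C ^ S.card * (N ^ 9) ^ A * dd E ^ (a + A) := by
        rw [pow_add]
        ring
    _ ≤ C * C ^ S.card * (N ^ 9) ^ A * (C₂ * (C₁ * C₁) ^ A₂ * (x.c.D * y.c.D) ^ A₂) ^ (a + A) := by
        refine mul_le_mul_of_nonneg_left (pow_le_pow_left₀ hddE0 hE _) (by positivity)
    _ = C * C ^ S.card * ((C₂ * (C₁ * C₁) ^ A₂) ^ (a + A) * (N ^ 9) ^ A) *
        (x.c.D * y.c.D) ^ (A₂ * (a + A)) := by
        rw [mul_pow _ ((x.c.D * y.c.D) ^ A₂) (a + A), ← pow_mul]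
        ring

end H1.SQ
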