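import Pool.Agent.H1.SL.Ls1
import Pool.Agent.H1.SQ.Ast
import Pool.Agent.H1.GS.Li1

/-!
# H1-SQ-LS1: `ls1g`, as H1/SL/Ls1, any number field
-/

set_option autoImplicit false

open scoped NumberField Pointwise Classical
open IsDedekindDomain H63.MA NumberField H36.QA H57.LI H57.SL H1.LS4 H67.SX H38.ML H1.SL

noncomputable section

namespace H1.SQ

theorem ls1g (K : IntermediateField ℚ QBar) [NumberField K]
    (S : Finset (Pl K)) (h2 : ∀ v : Pl K, Above 2 v → v ∈ S) : LS1 K S := by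
  obtain ⟨C, A, δ, hC, hδ, hδ4, hasm⟩ := asm1g K (Module.finrank ℚ K * 3)
  obtain ⟨a, ha⟩ := cpw K C
  obtain ⟨C₁, hC₁, hddt⟩ := ddt K
  obtain ⟨N, hN⟩ : ∃ N : ℝ, N = (Ideal.absNorm (H48.T3.mS S) : ℝ) := ⟨_, rfl⟩
  have hN1 : 1 ≤ N := by
    rw [hN]
    exact_mod_cast (md_abs K S K (Module.finrank_self K)).2
  have hC0 : 0 ≤ C := by linarith
  refine ⟨C * C ^ S.card * (C₁ * N ^ 3) ^ A, a + A, δ, ?_, hδ, by linarith, fun x Y hY => ?_⟩
  · refine one_le_mul_of_one_le_of_one_le (one_le_mul_of_one_le_of_one_le hC (one_le_pow₀ hC))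
      (one_le_pow₀ (one_le_mul_of_one_le_of_one_le hC₁ (one_le_pow₀ hN1)))
  obtain ⟨B, hB1, hB⟩ := bdn x.c
  have hD1 := one_le_D x.c
  have hdd1 := one_le_dd x.c.F
  have h1 := hasm x.c.F (H1.GS.fr_up rfl x.c.deg) (mF S x.c.F) (md_n0 K S x.c.F) x.χ x.non (off S x.lp)
    (fun l => (off_le x l).trans (by norm_num)) (S ∪ B) (by
      intro l hl
      rw [Finset.mem_union, not_or] at hl
      have h3 : off S x.lp l = x.lp l := if_neg hl.1
      rw [h3]
      exact (cbl_lp h2 x l hl.1 (hB l hl.2)).symm) Y hY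
  rw [sq_sf]
  refine h1.trans (mul_le_mul_of_nonneg_right ?_ (Real.rpow_nonneg (by linarith) _))
  have h4 : C ^ (S ∪ B).card ≤ C ^ S.card * x.c.D ^ a := by
    calc C ^ (S ∪ B).card ≤ C ^ (S.card + B.card) :=
          pow_le_pow_right₀ hC (Finset.card_union_le _ _)
      _ = C ^ S.card * C ^ B.card := pow_add _ _ _
      _ ≤ C ^ S.card * x.c.D ^ a := by
          refine mul_le_mul_of_nonneg_left ((ha B).trans ?_) (pow_nonneg hC0 _)
          exact pow_le_pow_left₀ (Finset.prod_nonneg fun l _ => Nat.cast_nonneg _) hB1 _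
  have h5 : (dd x.c.F * (Ideal.absNorm (mF S x.c.F) : ℝ)) ^ A ≤ (C₁ * N ^ 3) ^ A * x.c.D ^ A := by
    rw [← mul_pow]
    have h6 : (Ideal.absNorm (mF S x.c.F) : ℝ) = N ^ 3 := by
      rw [(md_abs K S x.c.F x.c.deg).1, hN]
      push_cast
      ring
    rw [h6]
    refine pow_le_pow_left₀ (by positivity) ?_ _
    calc dd x.c.F * N ^ 3 ≤ (C₁ * x.c.D) * N ^ 3 :=
          mul_le_mul_of_nonneg_right (hddt x.c) (by positivity)
      _ = C₁ * N ^ 3 * x.c.D := by ring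
  have hD0 : 0 ≤ x.c.D := by linarith
  calc C * C ^ (S ∪ B).card * (dd x.c.F * (Ideal.absNorm (mF S x.c.F) : ℝ)) ^ A
      ≤ C * (C ^ S.card * x.c.D ^ a) * ((C₁ * N ^ 3) ^ A * x.c.D ^ A) := by
        refine mul_le_mul (mul_le_mul_of_nonneg_left h4 hC0) h5 (by positivity) (by positivity)
    _ = C * C ^ S.card * (C₁ * N ^ 3) ^ A * x.c.D ^ (a + A) := by
        rw [pow_add]
        ring

end H1.SQ
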