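import Pool.Agent.H1.SL.Ls2
import Pool.Agent.H1.SQ.Ls1
import Pool.Agent.H1.SQ.Cr9
import Pool.Agent.H1.SQ.Cr6

/-!
# H1-SQ-LS2: `ls2g` (few exceptions), as H1/SL/Ls2, any number field
-/

set_option autoImplicit false

open scoped NumberField Pointwise Classical
open IsDedekindDomain H63.MA NumberField H36.QA H57.LI H57.SL H1.LS4 H67.SX H38.ML H1.SL

noncomputable section

namespace H1.SQ

theorem crrg (K : IntermediateField ℚ QBar) [NumberField K]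
    (S : Finset (Pl K)) (h2 : ∀ v : Pl K, Above 2 v → v ∈ S) :
    ∃ (C : ℝ) (A : ℕ) (δ : ℝ), 1 ≤ C ∧ 0 < δ ∧ δ ≤ 1 / 4 ∧
      ∀ x y : AQ K S, ¬ Cj x y → ∀ Y : ℝ, 1 ≤ Y →
        |∑ s ∈ (prK K).SF Y, pd (fun l => off S x.lp l * off S y.lp l) s| ≤
          C * (x.c.D * y.c.D) ^ A * Y ^ (1 - δ) := by
  obtain ⟨C₁, A₁, δ₁, hC₁, hδ₁, hδ₁4, hdiff⟩ := cr9g K S h2
  obtain ⟨C₂, A₂, δ₂, hC₂, hδ₂, hδ₂4, hsame⟩ := cr6g K S h2
  refine ⟨max C₁ C₂, A₁ + A₂, min δ₁ δ₂, le_max_of_le_left hC₁, lt_min hδ₁ hδ₂, (min_le_left _ _).trans hδ₁4, ?_⟩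
  intro x y hncj Y hY
  have hD1 : (1 : ℝ) ≤ x.c.D := one_le_D x.c
  have hD2 : (1 : ℝ) ≤ y.c.D := one_le_D y.c
  have hD : (1 : ℝ) ≤ x.c.D * y.c.D := one_le_mul_of_one_le_of_one_le hD1 hD2
  have hY0 : (0 : ℝ) < Y := by linarith
  have hfin : ∀ (C : ℝ) (A : ℕ) (δ : ℝ), 0 ≤ C → C ≤ max C₁ C₂ → A ≤ A₁ + A₂ → min δ₁ δ₂ ≤ δ →
      C * (x.c.D * y.c.D) ^ A * Y ^ (1 - δ) ≤
        max C₁ C₂ * (x.c.D * y.c.D) ^ (A₁ + A₂) * Y ^ (1 - min δ₁ δ₂) := by
    intro C A δ h0 hC hA hδ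
    have hm : 0 ≤ max C₁ C₂ := h0.trans hC
    refine mul_le_mul (mul_le_mul hC (pow_le_pow_right₀ hD hA) (by positivity) hm)
      (Real.rpow_le_rpow_of_exponent_le hY (by linarith)) (Real.rpow_nonneg hY0.le _) (by positivity)
  rcases isEmpty_or_nonempty (x.c.F ≃ₐ[K] y.c.F) with he | he
  · exact (hdiff x y he Y hY).trans
      (hfin C₁ A₁ δ₁ (by linarith) (le_max_left _ _) (by omega) (min_le_left _ _))
  · exact (hsame x y he hncj Y hY).trans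
      (hfin C₂ A₂ δ₂ (by linarith) (le_max_right _ _) (by omega) (min_le_right _ _))

theorem ls2g (K : IntermediateField ℚ QBar) [NumberField K]
    (S : Finset (Pl K)) (h2 : ∀ v : Pl K, Above 2 v → v ∈ S) : LS2 K S := by
  obtain ⟨C₁, A₂, δ₁, hC₁, hδ₁, hδ₁', h1⟩ := crrg K S h2
  obtain ⟨C₂, A₃, δ₂, hC₂, hδ₂, hδ₂', h2'⟩ := ls1g K S h2
  intro A₁ B ε hε
  set δ : ℝ := min δ₁ δ₂ with hδd
  have hδ : 0 < δ := lt_min hδ₁ hδ₂
  have hδa : δ ≤ δ₁ := min_le_left _ _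
  have hδb : δ ≤ δ₂ := min_le_right _ _
  set A : ℕ := 2 * A₁ * A₂ + A₁ * A₃ + 1 with hAd
  obtain ⟨R₀, hR₀3, hR₀⟩ := absfin (prK K) (A : ℝ) δ (ε / 2) (Nat.cast_nonneg _) hδ (by linarith) (by linarith) B
  have hbig : ∃ R₁ : ℝ, ∀ R : ℝ, R₁ ≤ R → 3 ≤ R ^ (ε / 2) := by
    have h := (tendsto_rpow_atTop (y := ε / 2) (by linarith)).eventually_ge_atTop 3
    rw [Filter.eventually_atTop] at h
    obtain ⟨a, ha⟩ := h
    exact ⟨a, ha⟩
  obtain ⟨R₁, hR₁⟩ := hbig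
  refine ⟨max R₀ (max R₁ (max C₁ C₂)), hR₀3.trans (le_max_left _ _), ?_⟩
  intro R hR J hJ
  have hRR0 : R₀ ≤ R := (le_max_left _ _).trans hR
  have hRR1 : R₁ ≤ R := ((le_max_left _ _).trans (le_max_right _ _)).trans hR
  have hRC1 : C₁ ≤ R := (((le_max_left _ _).trans (le_max_right _ _)).trans (le_max_right _ _)).trans hR
  have hRC2 : C₂ ≤ R := (((le_max_right _ _).trans (le_max_right _ _)).trans (le_max_right _ _)).trans hR
  have hR1 : 1 ≤ R := by linarith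
  have hR0 : 0 < R := by linarith
  have hRe : 0 < R ^ (ε / 2) := Real.rpow_pos_of_pos hR0 _
  -- the bound for a finite subset
  have key : ∀ T : Finset (AQ K S), (T : Set (AQ K S)) ⊆ J → (T.card : ℝ) ≤ R ^ ε := by
    intro T hT
    obtain ⟨T', hS1, hS2, hS3⟩ := cjr T
    have hSJ : ∀ x ∈ T', x ∈ J := fun x hx => hT (hS1 hx)
    have h3 := hR₀ R hRR0 T' (fun x => off S x.1.lp) (fun x l => off_le x.1 l) ?_ ?_ ?_
    · rw [Fintype.card_coe] at h3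
      have h4 : (T.card : ℝ) ≤ 3 * T'.card := by exact_mod_cast hS3
      have h5 := hR₁ R hRR1
      calc (T.card : ℝ) ≤ 3 * T'.card := h4
        _ ≤ R ^ (ε / 2) * R ^ (ε / 2) := mul_le_mul h5 h3 (Nat.cast_nonneg _) hRe.le
        _ = R ^ ε := by
          rw [← Real.rpow_add hR0]
          congr 1
          ring
    · intro x y hxy Y hY
      have hY0 : 0 < Y := by linarith
      have h4 : ¬ Cj x.1 y.1 := hS2 x.1 x.2 y.1 y.2 fun h => hxy (Subtype.ext h)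
      have h5 := h1 x.1 y.1 h4 Y hY
      have h5' : ∑ s ∈ (prK K).SF Y, pd (off S x.1.lp) s * pd (off S y.1.lp) s =
          ∑ s ∈ (prK K).SF Y, pd (fun l => off S x.1.lp l * off S y.1.lp l) s :=
        Finset.sum_congr rfl fun s _ => (Finset.prod_mul_distrib (s := s)).symm
      change |∑ s ∈ (prK K).SF Y, pd (off S x.1.lp) s * pd (off S y.1.lp) s| ≤ _
      rw [h5']
      refine h5.trans ?_
      have hx := (hJ x.1 (hSJ x.1 x.2)).1
      have hy := (hJ y.1 (hSJ y.1 y.2)).1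
      have hx1 := one_le_D x.1.c
      have hy1 := one_le_D y.1.c
      have h6 : (x.1.c.D * y.1.c.D) ^ A₂ ≤ R ^ (2 * A₁ * A₂) := by
        calc (x.1.c.D * y.1.c.D) ^ A₂ ≤ (R ^ A₁ * R ^ A₁) ^ A₂ :=
              pow_le_pow_left₀ (by positivity) (mul_le_mul hx hy (by linarith) (by positivity)) A₂
          _ = R ^ (2 * A₁ * A₂) := by
            rw [← pow_add, ← pow_mul]
            congr 1
            ring
      have h7 : Y ^ (1 - δ₁) ≤ Y ^ (1 - δ) := Real.rpow_le_rpow_of_exponent_le hY (by linarith)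
      have h8 : C₁ * (x.1.c.D * y.1.c.D) ^ A₂ ≤ R ^ (A : ℝ) := by
        rw [Real.rpow_natCast]
        calc C₁ * (x.1.c.D * y.1.c.D) ^ A₂ ≤ R * R ^ (2 * A₁ * A₂) :=
              mul_le_mul hRC1 h6 (by positivity) hR0.le
          _ = R ^ (2 * A₁ * A₂ + 1) := by rw [pow_succ]; ring
          _ ≤ R ^ A := pow_le_pow_right₀ hR1 (by omega)
      exact mul_le_mul h8 h7 (by positivity) (by positivity)
    · intro x Y hY
      have hY0 : 0 < Y := by linarith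
      have h5 := h2' x.1 Y hY
      rw [sq_sf x.1 Y] at h5
      refine h5.trans ?_
      have hx := (hJ x.1 (hSJ x.1 x.2)).1
      have hx1 := one_le_D x.1.c
      have h6 : x.1.c.D ^ A₃ ≤ R ^ (A₁ * A₃) := by
        rw [pow_mul]
        exact pow_le_pow_left₀ (by linarith) hx A₃
      have h7 : Y ^ (1 - δ₂) ≤ Y ^ (1 - δ) := Real.rpow_le_rpow_of_exponent_le hY (by linarith)
      have h8 : C₂ * x.1.c.D ^ A₃ ≤ R ^ (A : ℝ) := by
        rw [Real.rpow_natCast]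
        calc C₂ * x.1.c.D ^ A₃ ≤ R * R ^ (A₁ * A₃) := mul_le_mul hRC2 h6 (by positivity) hR0.le
          _ = R ^ (A₁ * A₃ + 1) := by rw [pow_succ]; ring
          _ ≤ R ^ A := pow_le_pow_right₀ hR1 (by omega)
      exact mul_le_mul h8 h7 (by positivity) (by positivity)
    · intro x
      obtain ⟨Y, hY1, hY2⟩ := (hJ x.1 (hSJ x.1 x.2)).2
      refine ⟨Y, hY1, ?_⟩
      rwa [sq_sf x.1 Y] at hY2
  have hfin : J.Finite := by
    by_contra hinf
    obtain ⟨T, hT, hTc⟩ := Set.Infinite.exists_subset_card_eq hinf (⌊R ^ ε⌋₊ + 1)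
    have h3 := key T hT
    rw [hTc] at h3
    have h4 := Nat.lt_floor_add_one (R ^ ε)
    push_cast at h3
    linarith
  refine ⟨hfin, ?_⟩
  have h3 := key hfin.toFinset (by rw [Set.Finite.coe_toFinset])
  rwa [← Set.ncard_eq_toFinset_card J hfin] at h3

end H1.SQ
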